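import Pool.Agent.K4W.StmtsP
import Pool.Agent.Helper20_HUA.Hmt

/-!
# Squad K4W, row GML: multiplicativity of Gauss sums in the numerator (helper16)
-/

set_option autoImplicit false

namespace Pool.Agent.K4W.H16

open Pool.Agent.Helper69_Weyl (ee W)

theorem GS_eq_Sc (r : ℕ) (a m : ℤ) : GS r a m = Pool.Agent.VM.Sc 2 r a m := rfl

theorem gs_mul (u₁ u₂ : ℕ) (b : ℤ) (h₁ : 0 < u₁) (h₂ : 0 < u₂) (h : Nat.Coprime u₁ u₂) :
    GS (u₁ * u₂) b 0 = GS u₁ (b * (u₂ : ℤ)) 0 * GS u₂ (b * (u₁ : ℤ)) 0 := by
  rw [GS_eq_Sc, GS_eq_Sc, GS_eq_Sc, Pool.Agent.VM.H20.hmt 2 u₁ u₂ b 0 (by norm_num) h₁ h₂ h]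
  norm_num

theorem gs_one (b : ℤ) : GS 1 b 0 = 1 := by
  unfold GS
  simp [ee]

theorem gml (hQ : Gq2Stmt) (hP : GprStmt) : GmlStmt := by
  intro r
  induction r using Nat.strong_induction_on with
  | _ r ih =>
    intro a b c hodd ha hb hc
    have hr0 : 0 < r := hodd.pos
    by_cases hr1 : r = 1
    · subst hr1
      simp only [gs_one]
    · obtain ⟨p, hp, hpr⟩ := Nat.exists_prime_and_dvd hr1
      have hp2 : p ≠ 2 := by
        rintro rfl
        rw [Nat.odd_iff] at hodd
        omega
      have hndvd : ∀ x : ℤ, IsCoprime x (r : ℤ) → ¬ (p : ℤ) ∣ x := by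
        intro x hx h
        have h1 : (p : ℤ) ∣ (r : ℤ) := Int.natCast_dvd_natCast.2 hpr
        have h2 := hx.isUnit_of_dvd' h h1
        have h3 := Int.isUnit_iff_natAbs_eq.1 h2
        rw [Int.natAbs_natCast] at h3
        exact hp.one_lt.ne' h3
      have hab : ∀ x y : ℤ, IsCoprime x (r : ℤ) → IsCoprime y (r : ℤ) →
          IsCoprime (x * y) (r : ℤ) := fun x y hx hy => hx.mul_left hy
      obtain ⟨s, hs⟩ := hpr
      by_cases hps : p ∣ s
      · obtain ⟨t, ht⟩ := hps
        have hrt : r = p ^ 2 * t := by rw [hs, ht]; ring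
        have ht0 : 0 < t := by
          rcases Nat.eq_zero_or_pos t with h | h
          · rw [h] at hrt
            omega
          · exact h
        have hlt : t < r := by
          rw [hrt]
          have h1 : 1 < p ^ 2 := Nat.one_lt_pow (by norm_num) hp.one_lt
          nlinarith
        have htodd : Odd t := by
          rw [hrt] at hodd
          exact Nat.Odd.of_mul_right hodd
        have hred : ∀ x : ℤ, IsCoprime x (r : ℤ) → IsCoprime x (t : ℤ) := by
          intro x hx
          have h1 : (r : ℤ) = (p : ℤ) ^ 2 * (t : ℤ) := by rw [hrt]; push_cast; ring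
          rw [h1] at hx
          exact hx.of_mul_right_right
        have h1 := ih t hlt a b c htodd (hred a ha) (hred b hb) (hred c hc)
        have hq : ∀ x : ℤ, IsCoprime x (r : ℤ) → GS r x 0 = (p : ℂ) * GS t x 0 := by
          intro x hx
          rw [hrt]
          exact hQ p t x hp hp2 ht0 (hndvd x hx)
        rw [hq _ (hab _ _ (hab _ _ ha hb) hc), hq _ hc, hq _ (hab _ _ ha hc),
          hq _ (hab _ _ hb hc)]
        linear_combination (p : ℂ) ^ 2 * h1
      · have hs0 : 0 < s := by
          rcases Nat.eq_zero_or_pos s with h | h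
          · rw [h] at hs
            omega
          · exact h
        have hcop : Nat.Coprime p s := (Nat.Prime.coprime_iff_not_dvd hp).2 hps
        have hlt : s < r := by
          rw [hs]
          have h1 := hp.one_lt
          nlinarith
        have hsodd : Odd s := by
          rw [hs] at hodd
          exact Nat.Odd.of_mul_right hodd
        have hrs : (r : ℤ) = (p : ℤ) * (s : ℤ) := by rw [hs]; push_cast; ring
        have hred : ∀ x : ℤ, IsCoprime x (r : ℤ) → IsCoprime x (s : ℤ) := by
          intro x hx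
          rw [hrs] at hx
          exact hx.of_mul_right_right
        have hpsZ : IsCoprime (p : ℤ) (s : ℤ) := Nat.isCoprime_iff_coprime.2 hcop
        have hsp : ¬ (p : ℤ) ∣ (s : ℤ) := by
          rw [Int.natCast_dvd_natCast]
          exact hps
        have hm : ∀ x : ℤ, GS r x 0 = GS p (x * (s : ℤ)) 0 * GS s (x * (p : ℤ)) 0 := by
          intro x
          rw [hs]
          exact gs_mul p s x hp.pos hs0 hcop
        have hpp : Prime (p : ℤ) := Nat.prime_iff_prime_int.1 hp
        have h1 := ih s hlt a b (c * (p : ℤ)) hsodd (hred a ha) (hred b hb)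
          ((hred c hc).mul_left hpsZ)
        have h2 := hP p a b (c * (s : ℤ)) hp hp2 (hndvd a ha) (hndvd b hb)
          (by
            intro h
            rcases hpp.dvd_or_dvd h with h | h
            · exact hndvd c hc h
            · exact hsp h)
        rw [hm (a * b * c), hm c, hm (a * c), hm (b * c)]
        rw [mul_assoc (a * b) c (s : ℤ), mul_assoc (a * b) c (p : ℤ), mul_assoc a c (s : ℤ),
          mul_assoc b c (s : ℤ), mul_assoc a c (p : ℤ), mul_assoc b c (p : ℤ)]
        calc GS p (a * b * (c * (s : ℤ))) 0 * GS s (a * b * (c * (p : ℤ))) 0 *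
              (GS p (c * (s : ℤ)) 0 * GS s (c * (p : ℤ)) 0)
            = (GS p (a * b * (c * (s : ℤ))) 0 * GS p (c * (s : ℤ)) 0) *
              (GS s (a * b * (c * (p : ℤ))) 0 * GS s (c * (p : ℤ)) 0) := by ring
          _ = (GS p (a * (c * (s : ℤ))) 0 * GS p (b * (c * (s : ℤ))) 0) *
              (GS s (a * (c * (p : ℤ))) 0 * GS s (b * (c * (p : ℤ))) 0) := by rw [h1, h2]
          _ = _ := by ring

end Pool.Agent.K4W.H16
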